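import Pool.Agent.Run7.h900.MX.Stm

/-! # Piece SYL of project MX (helper900): invariant Sylow subgroups of profinite groups (helper299) -/

universe u

set_option autoImplicit false

namespace Run7.h299.MX

open Run7.h900.MX

theorem relIndex_map_mul {G G' : Type*} [Group G] [Group G'] (f : G →* G') {A B C : Subgroup G}
    (h1 : A ≤ B) (h2 : B ≤ C) : (A.map f).relIndex (C.map f) =
      (A.map f).relIndex (B.map f) * (B.map f).relIndex (C.map f) :=
  (Subgroup.relIndex_mul_relIndex _ _ _ (Subgroup.map_mono h1) (Subgroup.map_mono h2)).symm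

theorem relIndex_map_dvd {G G' : Type*} [Group G] [Group G'] (f : G →* G') (A B : Subgroup G) :
    (A.map f).relIndex (B.map f) ∣ A.relIndex B := by
  rw [← Subgroup.relIndex_comap]
  exact Subgroup.relIndex_dvd_of_le_left B (Subgroup.le_comap_map f A)

theorem t_SYL : S_COP.{u} → S_CHAIN.{u} → S_SYL.{u} := by
  intro hCOP hCHAIN G _ _ _ _ _ _ T K hK hTK hsol hcop s hs
  obtain ⟨H, hH, hmin⟩ := hCHAIN G T K hK hTK s hs
  refine ⟨H, hH, fun U x hx => ?_⟩
  obtain ⟨hHc, hHK, hTH, hHi⟩ := hH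
  have hfin : Finite (G ⧸ U.toSubgroup) := U.toSubgroup.quotient_finite_of_isOpen U.isOpen'
  -- the finite group
  have hBK : Nat.card (H.map (pr U)) ∣ Nat.card (K.map (pr U)) :=
    Subgroup.card_dvd_of_le (Subgroup.map_mono hHK)
  have hAB : (Nat.card (T.map (pr U))).Coprime (Nat.card (H.map (pr U))) :=
    Nat.Coprime.coprime_dvd_right hBK (hcop U)
  have hnrm : Nrm (T.map (pr U)) (H.map (pr U)) := by
    rintro _ ⟨t, ht, rfl⟩ _ ⟨y, hy, rfl⟩
    exact ⟨t * y * t⁻¹, hTH t ht y hy, by simp⟩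
  obtain ⟨S', hS'B, hS'p, hS'i, hS'n⟩ := hCOP (G ⧸ U.toSubgroup) (T.map (pr U)) (H.map (pr U))
    (hsol U) hAB hnrm s hs
  -- the smaller subgroup
  have hH'H : H ⊓ S'.comap (pr U) ≤ H := inf_le_left
  have hrel : (H ⊓ S'.comap (pr U)).relIndex H = S'.relIndex (H.map (pr U)) := by
    rw [Subgroup.inf_relIndex_left, Subgroup.relIndex_comap]
  have hopen : IsOpen ((S'.comap (pr U) : Subgroup G) : Set G) := by
    refine Subgroup.isOpen_mono (H₁ := U.toSubgroup) ?_ U.isOpen'
    intro y hy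
    rw [Subgroup.mem_comap]
    have : pr U y = 1 := (QuotientGroup.eq_one_iff y).2 hy
    rw [this]
    exact S'.one_mem
  have hfam : Fam T K s (H ⊓ S'.comap (pr U)) := by
    refine ⟨?_, hH'H.trans hHK, ?_, fun W hdvd => ?_⟩
    · rw [Subgroup.coe_inf]
      exact hHc.inter (Subgroup.isClosed_of_isOpen _ hopen)
    · intro t ht y hy
      refine ⟨hTH t ht y hy.1, ?_⟩
      show pr U (t * y * t⁻¹) ∈ S'
      rw [map_mul, map_mul, map_inv]
      exact hS'n _ ⟨t, ht, rfl⟩ _ hy.2
    · rw [relIndex_map_mul (pr W) hH'H hHK] at hdvd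
      rcases hs.dvd_mul.1 hdvd with h | h
      · apply hS'i
        rw [← hrel]
        exact h.trans (relIndex_map_dvd _ _ _)
      · exact hHi W h
  have heq := hmin _ hfam hH'H
  have hxS : x ∈ S'.comap (pr U) := by
    have : x ∈ H ⊓ S'.comap (pr U) := by rw [heq]; exact hx
    exact this.2
  obtain ⟨k, hk⟩ := hS'p ⟨pr U x, hxS⟩
  refine ⟨k, ?_⟩
  have h1 : (pr U x) ^ s ^ k = 1 := by
    have := congrArg (Subtype.val) hk
    simpa using this
  rw [← map_pow] at h1
  exact (QuotientGroup.eq_one_iff _).1 h1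

end Run7.h299.MX
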